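import Pool.Agent.Helper77.PPO.Goals2

/-!
# From classes to fields
-/

namespace Pool.Agent.Helper30.PPO

open Pool.Agent.Helper11.PP

section fib

variable {Cl Fi : Type} (nf : Cl → Fi) (A : Set Cl) (Z : Set Fi) (q : ℕ)

/-- Sums over the fibres. -/
theorem fib_sum (hq : 0 < q) (hA : ∀ c ∈ A, nf c ∈ Z)
    (hf : ∀ N ∈ Z, {c | c ∈ A ∧ nf c = N}.ncard = q) (g : Fi → ℝ)
    (hs : Summable fun c : A => g (nf c)) :
    (Summable fun N : Z => g N) ∧ (q : ℝ) * ∑' N : Z, g N = ∑' c : A, g (nf c) := by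
  set f : A → Z := fun c => ⟨nf c, hA c c.2⟩ with hfdef
  have hcard : ∀ y : Z, Nat.card {x : A // f x = y} = q := by
    intro y
    rw [← hf y y.2, ← Nat.card_coe_set_eq]
    refine Nat.card_congr ?_
    refine ⟨fun x => ⟨x.1.1, x.1.2, congrArg Subtype.val x.2⟩,
      fun c => ⟨⟨c.1, c.2.1⟩, Subtype.ext c.2.2⟩, fun x => rfl, fun c => rfl⟩
  have e := Equiv.sigmaFiberEquiv f
  have hs2 : Summable fun z : Σ y : Z, {x : A // f x = y} => g z.1 := by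
    have h := (Equiv.sigmaFiberEquiv f).summable_iff.2 hs
    refine h.congr fun z => ?_
    have hz : (f z.2.1 : Fi) = z.1 := congrArg Subtype.val z.2.2
    exact congrArg g hz
  have hin : ∀ y : Z, ∑' _ : {x : A // f x = y}, g y = q * g y := by
    intro y
    rw [tsum_const, hcard, nsmul_eq_mul]
  have hs3 : Summable fun y : Z => (q : ℝ) * g y := by
    have := hs2.sigma
    refine this.congr fun y => ?_
    exact hin y
  have hq' : (q : ℝ) ≠ 0 := by positivity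
  have hs4 : Summable fun N : Z => g N := (summable_mul_left_iff hq').1 hs3
  refine ⟨hs4, ?_⟩
  rw [← tsum_mul_left]
  have h5 : ∑' z : Σ y : Z, {x : A // f x = y}, g z.1 = ∑' c : A, g (nf c) := by
    rw [← (Equiv.sigmaFiberEquiv f).tsum_eq]
    refine tsum_congr fun z => ?_
    have hz : (f z.2.1 : Fi) = z.1 := congrArg Subtype.val z.2.2
    exact congrArg g hz.symm
  rw [← h5, hs2.tsum_sigma]
  exact tsum_congr fun y => (hin y).symm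

/-- Numbers of elements. -/
theorem fib_card (hq : 0 < q) (hA : ∀ c ∈ A, nf c ∈ Z)
    (hf : ∀ N ∈ Z, {c | c ∈ A ∧ nf c = N}.ncard = q) (hfin : A.Finite) :
    Z.Finite ∧ A.ncard = q * Z.ncard := by
  classical
  have hZ : Z.Finite := by
    refine (hfin.image nf).subset fun N hN => ?_
    have h := hf N hN
    have h' : {c | c ∈ A ∧ nf c = N}.Nonempty := by
      rw [Set.nonempty_iff_ne_empty]
      intro h0
      rw [h0, Set.ncard_empty] at h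
      omega
    obtain ⟨c, hc, hcN⟩ := h'
    exact ⟨c, hc, hcN⟩
  refine ⟨hZ, ?_⟩
  rw [Set.ncard_eq_toFinset_card A hfin, Set.ncard_eq_toFinset_card Z hZ,
    Finset.card_eq_sum_card_fiberwise (f := nf) (t := hZ.toFinset)
      (fun x hx => by
        have hx' : x ∈ A := by simpa using hx
        simpa using hA x hx')]
  rw [Finset.sum_const_nat (m := q), mul_comm]
  intro N hN
  have hN' : N ∈ Z := by simpa using hN
  rw [← hf N hN', ← Set.ncard_coe_finset]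
  congr 1
  ext c
  simp

end fib


/-- Sums over a union. -/
theorem tsum_cover {Cl : Type} (A A' : Set Cl) (n : ℕ) (Bd : Fin n → Set Cl) (h : Cl → ℝ)
    (h0 : ∀ c, 0 ≤ h c) (hs : Summable fun c : A => h c) (hA' : ∀ c ∈ A', c ∈ A ∧ ∃ r, c ∈ Bd r) :
    ∑' c : A', h c ≤ ∑ r, ∑' c : {c | c ∈ A ∧ c ∈ Bd r}, h c := by
  have hsA : Summable (A.indicator h) := summable_subtype_iff_indicator.1 hs
  have hsr : ∀ r, Summable ({c | c ∈ A ∧ c ∈ Bd r}.indicator h) := fun r =>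
    Summable.of_nonneg_of_le (fun c => Set.indicator_nonneg (fun c _ => h0 c) c)
      (fun c => Set.indicator_le_indicator_of_subset (fun c hc => hc.1) h0 c) hsA
  have hs' : Summable (A'.indicator h) :=
    Summable.of_nonneg_of_le (fun c => Set.indicator_nonneg (fun c _ => h0 c) c)
      (fun c => Set.indicator_le_indicator_of_subset (fun c hc => (hA' c hc).1) h0 c) hsA
  rw [tsum_subtype A' h]
  have h2 : ∑ r, ∑' c : {c | c ∈ A ∧ c ∈ Bd r}, h c =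
      ∑' c, ∑ r, {c | c ∈ A ∧ c ∈ Bd r}.indicator h c := by
    rw [Summable.tsum_finsetSum (fun r _ => hsr r)]
    exact Finset.sum_congr rfl fun r _ => tsum_subtype _ h
  rw [h2]
  refine hs'.tsum_le_tsum (fun c => ?_) (summable_sum fun r _ => hsr r)
  by_cases hc : c ∈ A'
  · obtain ⟨hcA, r, hr⟩ := hA' c hc
    rw [Set.indicator_of_mem hc]
    have h3 : h c = {c | c ∈ A ∧ c ∈ Bd r}.indicator h c :=
      (Set.indicator_of_mem (show c ∈ {c | c ∈ A ∧ c ∈ Bd r} from ⟨hcA, hr⟩) h).symm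
    rw [h3]
    exact Finset.single_le_sum (f := fun r => {c | c ∈ A ∧ c ∈ Bd r}.indicator h c)
      (fun r _ => Set.indicator_nonneg (fun c _ => h0 c) c) (Finset.mem_univ r)
  · rw [Set.indicator_of_notMem hc]
    exact Finset.sum_nonneg fun r _ => Set.indicator_nonneg (fun c _ => h0 c) c

theorem sub_ncard {Fi : Type} (Z : Set Fi) (P : Fi → Prop) :
    {i : Z | P i}.ncard = {N | N ∈ Z ∧ P N}.ncard := by
  rw [← Set.ncard_image_of_injective _ Subtype.val_injective]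
  congr 1
  ext N
  constructor
  · rintro ⟨i, hi, rfl⟩
    exact ⟨i.2, hi⟩
  · rintro ⟨h1, h2⟩
    exact ⟨⟨N, h1⟩, h2, rfl⟩

/-- The abstract form. -/
theorem core {Cl Fi : Type} (nf : Cl → Fi) (A B : Set Cl) (ZN ZF : Set Fi) (q : ℕ) (hq : 0 < q)
    (cd : Fi → ℕ) (cc : Cl → ℕ) (hAB : A ⊆ B) (hFN : ZF ⊆ ZN)
    (k2 : ∀ N ∈ ZN, {c | c ∈ B ∧ nf c = N}.ncard = q)
    (k3 : ∀ c ∈ B, (c ∈ A ↔ nf c ∈ ZF)) (k4 : ∀ c ∈ A, cd (nf c) = cc c)
    (hnat : D_NAT)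
    (hcmp : ∃ C : ℕ, ∀ X : ℕ, {N | N ∈ ZN ∧ cd N ≤ X}.ncard ≤
      C * ({N | N ∈ ZF ∧ cd N ≤ C * X}.ncard + 1))
    (hbfn : ∀ X : ℕ, {N | N ∈ ZN ∧ cd N ≤ X}.Finite)
    (n : ℕ) (Bd : Fin n → Set Cl) (G : Set Fi) (θ : ℝ) (_hθ : 0 ≤ θ)
    (hG : ∀ c ∈ A, nf c ∉ G → ∃ r, c ∈ Bd r)
    (hs : ∀ X : ℝ, 0 < X → Summable fun c : A => Real.exp (-(cc c.1 : ℝ) / X))
    (hfin : ∀ X : ℝ, {c | c ∈ A ∧ (cc c : ℝ) ≤ X}.Finite)
    (hdb : ∃ C X₀ : ℝ, 0 < X₀ ∧ ∀ X : ℝ, X₀ ≤ X →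
      ({c | c ∈ A ∧ (cc c : ℝ) ≤ 2 * X}.ncard : ℝ) ≤ C * {c | c ∈ A ∧ (cc c : ℝ) ≤ X}.ncard)
    (hinf : A.Infinite)
    (hab : ∀ r, ∀ η : ℝ, 0 < η → ∀ᶠ X : ℝ in Filter.atTop,
      ∑' c : {c | c ∈ A ∧ c ∈ Bd r}, Real.exp (-(cc c.1 : ℝ) / X) ≤
        (θ + η) * ∑' c : A, Real.exp (-(cc c.1 : ℝ) / X)) :
    (∀ X : ℝ, 0 < X → Summable fun N : ZF => Real.exp (-(cd N.1 : ℝ) / X)) ∧
    (∀ η : ℝ, 0 < η → ∀ᶠ X : ℝ in Filter.atTop,
      ∑' N : {N | N ∈ ZF ∧ N ∉ G}, Real.exp (-(cd N.1 : ℝ) / X) ≤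
        (n * θ + η) * ∑' N : ZF, Real.exp (-(cd N.1 : ℝ) / X)) ∧
    (∀ X : ℕ, {N | N ∈ ZN ∧ cd N ≤ X}.Finite) ∧
    (n * θ < 1 → ∃ c : ℝ, 0 < c ∧ ∀ᶠ X : ℕ in Filter.atTop,
      0 < {N | N ∈ ZN ∧ cd N ≤ X}.ncard ∧
      c * {N | N ∈ ZN ∧ cd N ≤ X}.ncard ≤ {N | N ∈ ZF ∧ cd N ≤ X ∧ N ∈ G}.ncard) := by
  have hq' : (0 : ℝ) < q := by exact_mod_cast hq
  have hA : ∀ c ∈ A, nf c ∈ ZF := fun c hc => (k3 c (hAB hc)).1 hc
  have hf : ∀ N ∈ ZF, {c | c ∈ A ∧ nf c = N}.ncard = q := by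
    intro N hN
    rw [← k2 N (hFN hN)]
    congr 1
    ext c
    constructor
    · rintro ⟨h1, h2⟩
      exact ⟨hAB h1, h2⟩
    · rintro ⟨h1, h2⟩
      exact ⟨(k3 c h1).2 (h2 ▸ hN), h2⟩
  -- summability
  have hsA : ∀ X : ℝ, 0 < X → Summable fun c : A => Real.exp (-(cd (nf c) : ℝ) / X) := by
    intro X hX
    refine (hs X hX).congr fun c => ?_
    rw [k4 c.1 c.2]
  have S1 : ∀ X : ℝ, 0 < X → (Summable fun N : ZF => Real.exp (-(cd N.1 : ℝ) / X)) ∧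
      (q : ℝ) * ∑' N : ZF, Real.exp (-(cd N.1 : ℝ) / X) =
        ∑' c : A, Real.exp (-(cc c.1 : ℝ) / X) := by
    intro X hX
    obtain ⟨h1, h2⟩ := fib_sum nf A ZF q hq hA hf (fun N => Real.exp (-(cd N : ℝ) / X)) (hsA X hX)
    refine ⟨h1, h2.trans ?_⟩
    exact tsum_congr fun c => by rw [k4 c.1 c.2]
  -- the Abel means
  have S2 : ∀ η : ℝ, 0 < η → ∀ᶠ X : ℝ in Filter.atTop,
      ∑' N : {N | N ∈ ZF ∧ N ∉ G}, Real.exp (-(cd N.1 : ℝ) / X) ≤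
        (n * θ + η) * ∑' N : ZF, Real.exp (-(cd N.1 : ℝ) / X) := by
    intro η hη
    have hη' : 0 < η / (n + 1) := by positivity
    have hev : ∀ᶠ X : ℝ in Filter.atTop, ∀ r,
        ∑' c : {c | c ∈ A ∧ c ∈ Bd r}, Real.exp (-(cc c.1 : ℝ) / X) ≤
          (θ + η / (n + 1)) * ∑' c : A, Real.exp (-(cc c.1 : ℝ) / X) :=
      Filter.eventually_all.2 fun r => hab r _ hη'
    filter_upwards [hev, Filter.eventually_gt_atTop (0 : ℝ)] with X hX hX0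
    have hfib := fib_sum nf {c | c ∈ A ∧ nf c ∉ G} {N | N ∈ ZF ∧ N ∉ G} q hq
      (fun c hc => ⟨hA c hc.1, hc.2⟩)
      (by
        rintro N ⟨hN, hNG⟩
        rw [← hf N hN]
        congr 1
        ext c
        constructor
        · rintro ⟨⟨h1, -⟩, h2⟩
          exact ⟨h1, h2⟩
        · rintro ⟨h1, h2⟩
          exact ⟨⟨h1, by rw [h2]; exact hNG⟩, h2⟩)
      (fun N => Real.exp (-(cd N : ℝ) / X))
      (by
        have h1 := summable_subtype_iff_indicator.1 (show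
          Summable ((fun c : Cl => Real.exp (-(cc c : ℝ) / X)) ∘ ((↑) : A → Cl)) from hs X hX0)
        have h2 : Summable ({c | c ∈ A ∧ nf c ∉ G}.indicator
            (fun c : Cl => Real.exp (-(cc c : ℝ) / X))) :=
          Summable.of_nonneg_of_le
            (fun c => Set.indicator_nonneg (fun c _ => (Real.exp_pos _).le) c)
            (fun c => Set.indicator_le_indicator_of_subset (fun c hc => hc.1)
              (fun c => (Real.exp_pos _).le) c) h1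
        refine (summable_subtype_iff_indicator.2 h2).congr fun c => ?_
        show Real.exp (-(cc c.1 : ℝ) / X) = Real.exp (-(cd (nf c.1) : ℝ) / X)
        rw [k4 c.1 c.2.1])
    obtain ⟨-, hfib2⟩ := hfib
    have h3 : ∑' c : {c | c ∈ A ∧ nf c ∉ G}, Real.exp (-(cd (nf c.1) : ℝ) / X) =
        ∑' c : {c | c ∈ A ∧ nf c ∉ G}, Real.exp (-(cc c.1 : ℝ) / X) :=
      tsum_congr fun c => by rw [k4 c.1 c.2.1]
    have h4 := tsum_cover A {c | c ∈ A ∧ nf c ∉ G} n Bd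
      (fun c : Cl => Real.exp (-(cc c : ℝ) / X)) (fun c => (Real.exp_pos _).le) (hs X hX0)
      (fun c hc => ⟨hc.1, hG c hc.1 hc.2⟩)
    have h5 : ∑ r, ∑' c : {c | c ∈ A ∧ c ∈ Bd r}, Real.exp (-(cc c.1 : ℝ) / X) ≤
        n * ((θ + η / (n + 1)) * ∑' c : A, Real.exp (-(cc c.1 : ℝ) / X)) := by
      refine (Finset.sum_le_card_nsmul _ _ _ fun r _ => hX r).trans ?_
      rw [Finset.card_univ, Fintype.card_fin, nsmul_eq_mul]
    have hT0 : 0 ≤ ∑' N : ZF, Real.exp (-(cd N.1 : ℝ) / X) :=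
      tsum_nonneg fun N => (Real.exp_pos _).le
    have h6 : (n : ℝ) * (η / (n + 1)) ≤ η := by
      rw [mul_div_assoc', div_le_iff₀ (by positivity)]
      nlinarith
    have h7 : (q : ℝ) * ∑' N : {N | N ∈ ZF ∧ N ∉ G}, Real.exp (-(cd N.1 : ℝ) / X) ≤
        q * ((n * θ + η) * ∑' N : ZF, Real.exp (-(cd N.1 : ℝ) / X)) := by
      refine (hfib2.trans h3).le.trans ((h4.trans h5).trans ?_)
      rw [← (S1 X hX0).2]
      have h8 : (n : ℝ) * ((θ + η / (n + 1)) * (q * ∑' N : ZF, Real.exp (-(cd N.1 : ℝ) / X))) =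
          (n * θ + n * (η / (n + 1))) * (q * ∑' N : ZF, Real.exp (-(cd N.1 : ℝ) / X)) := by ring
      have h9 : (q : ℝ) * ((n * θ + η) * ∑' N : ZF, Real.exp (-(cd N.1 : ℝ) / X)) =
          (n * θ + η) * (q * ∑' N : ZF, Real.exp (-(cd N.1 : ℝ) / X)) := by ring
      rw [h8, h9]
      exact mul_le_mul_of_nonneg_right (by linarith) (by positivity)
    exact le_of_mul_le_mul_left h7 hq'
  refine ⟨fun X hX => (S1 X hX).1, S2, hbfn, fun hnt => ?_⟩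
  -- the counting functions
  set a : ℝ → ℕ := fun X => {N | N ∈ ZF ∧ (cd N : ℝ) ≤ X}.ncard with ha
  have hcnt : ∀ X : ℝ, {N | N ∈ ZF ∧ (cd N : ℝ) ≤ X}.Finite ∧
      {c | c ∈ A ∧ (cc c : ℝ) ≤ X}.ncard = q * a X := by
    intro X
    refine fib_card nf {c | c ∈ A ∧ (cc c : ℝ) ≤ X} {N | N ∈ ZF ∧ (cd N : ℝ) ≤ X} q hq
      (fun c hc => ⟨hA c hc.1, by rw [k4 c hc.1]; exact hc.2⟩) ?_ (hfin X)
    rintro N ⟨hN, hNX⟩
    rw [← hf N hN]
    congr 1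
    ext c
    constructor
    · rintro ⟨⟨h1, -⟩, h2⟩
      exact ⟨h1, h2⟩
    · rintro ⟨h1, h2⟩
      refine ⟨⟨h1, ?_⟩, h2⟩
      rw [← k4 c h1, h2]
      exact hNX
  have hmono : ∀ X Y : ℝ, X ≤ Y → a X ≤ a Y := fun X Y hXY =>
    Set.ncard_le_ncard (fun N hN => ⟨hN.1, hN.2.trans hXY⟩) (hcnt Y).1
  obtain ⟨C, X₀, hX₀, hdb⟩ := hdb
  have hdb' : ∀ X : ℝ, X₀ ≤ X → (a (2 * X) : ℝ) ≤ C * a X := by
    intro X hX
    have h1 := hdb X hX
    rw [(hcnt (2 * X)).2, (hcnt X).2, Nat.cast_mul, Nat.cast_mul] at h1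
    have h2 : (q : ℝ) * a (2 * X) ≤ q * (C * a X) := by linarith
    exact le_of_mul_le_mul_left h2 hq'
  set C' : ℝ := max C 1 with hC'
  have hC1 : 1 ≤ C' := le_max_right _ _
  have hit : ∀ (l : ℕ) (X : ℝ), X₀ ≤ X → (a (2 ^ l * X) : ℝ) ≤ C' ^ l * a X := by
    intro l X hX
    induction l with
    | zero => simp
    | succ l ih =>
      have h1 : X₀ ≤ 2 ^ l * X := by
        have h2 : (1 : ℝ) ≤ 2 ^ l := one_le_pow₀ (by norm_num)
        nlinarith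
      have h2 := hdb' _ h1
      have h3 : (2 : ℝ) * (2 ^ l * X) = 2 ^ (l + 1) * X := by ring
      rw [h3] at h2
      calc (a (2 ^ (l + 1) * X) : ℝ) ≤ C * a (2 ^ l * X) := h2
        _ ≤ C' * a (2 ^ l * X) :=
          mul_le_mul_of_nonneg_right (le_max_left _ _) (Nat.cast_nonneg _)
        _ ≤ C' * (C' ^ l * a X) := mul_le_mul_of_nonneg_left ih (by linarith)
        _ = C' ^ (l + 1) * a X := by ring
  -- the constant
  set η : ℝ := (1 - n * θ) / 2 with hη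
  have hη0 : 0 < η := by
    rw [hη]
    linarith
  obtain ⟨X₂, hX₂⟩ := Filter.eventually_atTop.1 (S2 η hη0)
  obtain ⟨c₀, X₁, hc₀, hX₁⟩ := hnat ZF (fun N => cd N.1)
    (fun X => by
      refine Set.Finite.of_injOn (f := Subtype.val) (t := {N | N ∈ ZF ∧ (cd N : ℝ) ≤ X}) ?_
        Subtype.val_injective.injOn (hcnt X).1
      intro i hi
      exact ⟨i.2, hi⟩)
    {i | i.1 ∈ G} C (max X₀ X₂) (n * θ + η) (lt_max_of_lt_left hX₀) (by rw [hη]; linarith)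
    (fun X hX => by
      have h1 := hdb' X ((le_max_left _ _).trans hX)
      rw [sub_ncard ZF fun N => (cd N : ℝ) ≤ 2 * X, sub_ncard ZF fun N => (cd N : ℝ) ≤ X]
      exact h1)
    (fun X hX => by
      have h1 := hX₂ X ((le_max_right _ _).trans hX)
      refine le_trans (le_of_eq ?_) h1
      exact (Equiv.subtypeSubtypeEquivSubtypeInter (fun N => N ∈ ZF) (fun N => N ∉ G)).tsum_eq
        (fun N => Real.exp (-(cd N.1 : ℝ) / X)))
  obtain ⟨Cn, hCn⟩ := hcmp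
  obtain ⟨c₁, hc₁⟩ := hinf.nonempty
  have hM : (0 : ℝ) < Cn * (C' ^ Cn + 1) + 1 := by positivity
  refine ⟨c₀ / (Cn * (C' ^ Cn + 1) + 1), by positivity, ?_⟩
  obtain ⟨X₃, hX₃⟩ := exists_nat_ge (max (max X₀ X₁) (cd (nf c₁) : ℝ))
  filter_upwards [Filter.eventually_ge_atTop X₃] with X hX
  have hXr : (X₃ : ℝ) ≤ X := by exact_mod_cast hX
  have hx0 : X₀ ≤ (X : ℝ) := ((le_max_left _ _).trans (le_max_left _ _)).trans (hX₃.trans hXr)
  have hx1 : X₁ ≤ (X : ℝ) := ((le_max_right _ _).trans (le_max_left _ _)).trans (hX₃.trans hXr)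
  have hx2 : (cd (nf c₁) : ℝ) ≤ X := (le_max_right _ _).trans (hX₃.trans hXr)
  have hx2' : cd (nf c₁) ≤ X := by exact_mod_cast hx2
  have hpos : 0 < {N | N ∈ ZN ∧ cd N ≤ X}.ncard :=
    (Set.ncard_pos (hbfn X)).2 ⟨nf c₁, hFN (hA c₁ hc₁), hx2'⟩
  have hapos : 1 ≤ a X := (Set.ncard_pos (hcnt X).1).2 ⟨nf c₁, hA c₁ hc₁, hx2⟩
  refine ⟨hpos, ?_⟩
  have hb : ∀ Y : ℕ, {N | N ∈ ZF ∧ cd N ≤ Y}.ncard = a (Y : ℝ) := by
    intro Y
    rw [ha]
    simp only [Nat.cast_le]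
  have h1 : ({N | N ∈ ZN ∧ cd N ≤ X}.ncard : ℝ) ≤ Cn * (a ((Cn * X : ℕ) : ℝ) + 1) := by
    have := hCn X
    rw [hb] at this
    exact_mod_cast this
  have h2 : (a ((Cn * X : ℕ) : ℝ) : ℝ) ≤ C' ^ Cn * a X := by
    refine le_trans ?_ (hit Cn X hx0)
    have h3 : ((Cn * X : ℕ) : ℝ) ≤ 2 ^ Cn * (X : ℝ) := by
      rw [Nat.cast_mul]
      have h4 : (Cn : ℝ) ≤ 2 ^ Cn := by exact_mod_cast Nat.lt_two_pow_self.le
      exact mul_le_mul_of_nonneg_right h4 (Nat.cast_nonneg _)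
    exact_mod_cast hmono _ _ h3
  have h3 : ({N | N ∈ ZN ∧ cd N ≤ X}.ncard : ℝ) ≤ (Cn * (C' ^ Cn + 1) + 1) * a X := by
    have h4 : (1 : ℝ) ≤ a X := by exact_mod_cast hapos
    have h5 : (a ((Cn * X : ℕ) : ℝ) : ℝ) + 1 ≤ (C' ^ Cn + 1) * a X := by
      rw [add_mul, one_mul]
      linarith
    have h6 : (Cn : ℝ) * (a ((Cn * X : ℕ) : ℝ) + 1) ≤ Cn * ((C' ^ Cn + 1) * a X) :=
      mul_le_mul_of_nonneg_left h5 (Nat.cast_nonneg _)
    have h7 : (0 : ℝ) ≤ a X := by linarith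
    rw [add_mul, one_mul, mul_assoc]
    linarith
  have h4 := hX₁ X hx1
  rw [sub_ncard ZF fun N => (cd N : ℝ) ≤ X] at h4
  have h5 : {i : ZF | i ∈ {i : ZF | i.1 ∈ G} ∧ (cd i.1 : ℝ) ≤ X}.ncard =
      {N | N ∈ ZF ∧ cd N ≤ X ∧ N ∈ G}.ncard := by
    rw [← sub_ncard ZF fun N => cd N ≤ X ∧ N ∈ G]
    congr 1
    ext i
    constructor
    · rintro ⟨h6, h7⟩
      exact ⟨by exact_mod_cast h7, h6⟩
    · rintro ⟨h6, h7⟩
      exact ⟨h7, by exact_mod_cast h6⟩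
  rw [h5] at h4
  refine le_trans ?_ h4
  rw [div_mul_eq_mul_div, div_le_iff₀ hM]
  have h6 := mul_le_mul_of_nonneg_left h3 hc₀.le
  calc c₀ * ({N | N ∈ ZN ∧ cd N ≤ X}.ncard : ℝ) ≤
        c₀ * ((Cn * (C' ^ Cn + 1) + 1) * a X) := h6
    _ = c₀ * a X * (Cn * (C' ^ Cn + 1) + 1) := by ring

theorem o_asm (h1 : D_CMP) (h2 : D_NAT) (h3 : D_BFN) : Pool.Agent.Helper77.PPO.O_ASM := by
  intro p hp K K₁ _ _ _ _ _ ε nf k1 k2 k3 k4 n Bd G θ hθ hG hs hfin hdb hinf hab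
  have hq : 0 < p - 1 := by
    have := hp.out.two_le
    omega
  exact core nf (ASet p K ε) (BSet p K ε) (CycN p K) (CycF p K) (p - 1) hq
    (fun N => cond K N) (fun c => condC K c)
    (fun c hc => by
      obtain ⟨hc1, a, ha, ho, -⟩ := hc
      exact ⟨hc1, a, ha, ho⟩)
    (fun N hN => ⟨hN.1, hN.2.1⟩) k2 k3 k4 h2 (h1 p K) (h3 p K) n Bd G θ hθ hG hs hfin hdb hinf hab

end Pool.Agent.Helper30.PPO
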